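import Pool.Agent.N207.AX.Conj
import Pool.Agent.N207.AX.Exp
import Pool.Agent.N227.CF.Low
import Pool.Agent.N207.AX.Gel
import Pool.Agent.N301.AX.IND
import Pool.Agent.N945.AX.ELL
import Pool.Agent.N878.AX.LINE

/-!
# Gel'fond's conjecture for all conjugates of the values of algebraic functions of several variables

Let `K` be a number field, `α_1, …, α_a` algebraic functions on a variety over `K` with coordinates in the affine space
`A ^ X`, linearly independent over `ℚ` modulo constants, and `β_1, …, β_n` algebraic functions, multiplicatively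
independent modulo constants. For a point `s` with coordinates in `K` we consider the `(a + n) [K : ℚ]` numbers
`exp(φ(α_i(s)))`, `log(φ(β_j(s)))`, `φ` running through the embeddings of `K`. Gel'fond's conjecture says that they are
algebraically independent if the `α`s and the logarithms are linearly independent over the rational numbers. We show
that they satisfy no relation of growing degree and height, with coefficients relative to arbitrary constants, for 100
percent of the points `s` with given denominators.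
-/

set_option autoImplicit false

open Filter NumberField

namespace Pool.Agent.Results.MP_c82530_nt.AllConjugates

/-- `f` satisfies on `U` a polynomial equation over the polynomials in the coordinates -/
def Algebraic {X : Type} (U : Set (X → ℂ)) (f : (X → ℂ) → ℂ) : Prop :=
  ∃ Q : Polynomial (MvPolynomial X ℂ), Q ≠ 0 ∧ ∀ z ∈ U, Q.eval₂ (MvPolynomial.eval z) (f z) = 0

/-- Algebraic functions `α_1, …, α_a` and logarithms `l_1, …, l_n` of algebraic functions of several variables, on a
connected nonempty open set; no nontrivial combination with integral coefficients of the `α_i`, and none of the `l_i`,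
is constant -/
structure Family {X : Type} [Fintype X] {a n : ℕ} (U : Set (X → ℂ)) (α : Fin a → (X → ℂ) → ℂ)
    (l : Fin n → (X → ℂ) → ℂ) : Prop where
  isOpen : IsOpen U
  isPreconnected : IsPreconnected U
  nonempty : U.Nonempty
  analytic_α : ∀ i, AnalyticOnNhd ℂ (α i) U
  analytic_l : ∀ i, AnalyticOnNhd ℂ (l i) U
  algebraic_α : ∀ i, Algebraic U (α i)
  algebraic_exp : ∀ i, Algebraic U (fun z => Complex.exp (l i z))
  independent_α : ∀ (m : Fin a → ℤ) (b : ℂ), (∀ z ∈ U, ∑ i, (m i : ℂ) * α i z = b) → m = 0
  independent_l : ∀ (m : Fin n → ℤ) (b : ℂ), (∀ z ∈ U, ∑ i, (m i : ℂ) * l i z = b) → m = 0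

/-- The functions `exp(α_i)` and `l_i` -/
noncomputable def value {X : Type} {a n : ℕ} (α : Fin a → (X → ℂ) → ℂ) (l : Fin n → (X → ℂ) → ℂ) :
    Fin a ⊕ Fin n → (X → ℂ) → ℂ
  | Sum.inl i, z => Complex.exp (α i z)
  | Sum.inr i, z => l i z

/-- the points of norm at most `k` at distance at least `1 / k` from the complement of `U` -/
def Inner {X : Type} [Fintype X] (U : Set (X → ℂ)) (k : ℕ) : Set (X → ℂ) := {z | ‖z‖ ≤ k ∧ Metric.ball z (k : ℝ)⁻¹ ⊆ U}

/-- the points with integral coordinates in `K` all of whose conjugates are at most `T` in absolute value -/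
def Points (K X : Type) [Field K] [NumberField K] (T : ℝ) : Set (X → 𝓞 K) := {a | ∀ j, house (a j : K) ≤ T}

variable {K X : Type} [Field K] [NumberField K] [Fintype X] {a n : ℕ}

/-- **The exceptional points**: `s` in `K ^ X`, all of whose conjugates `φ s` are in the compact sets `Inner (U φ) k`,
such that some nonzero polynomial `R` in `(a + n) [K : ℚ]` variables, of partial degrees at most `k`, whose coefficients
are combinations `∑ ξ i * c i` with integers `c i` of `L` all of whose conjugates are at most `T ^ k`, vanishes at the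
numbers `exp(α φ i (φ s))`, `l φ i (φ s)` -/
def Exceptional (U : (K →+* ℂ) → Set (X → ℂ)) (α : (K →+* ℂ) → Fin a → (X → ℂ) → ℂ)
    (l : (K →+* ℂ) → Fin n → (X → ℂ) → ℂ) (L : Type) [Field L]
    [NumberField L] (io : L →+* ℂ) (k : ℕ) (ξ : Fin k → ℂ) (T : ℝ) : Set (X → K) :=
  {s | (∀ φ : K →+* ℂ, (fun j => φ (s j)) ∈ Inner (U φ) k) ∧
    ∃ R : MvPolynomial ((K →+* ℂ) × (Fin a ⊕ Fin n)) ℂ, R ≠ 0 ∧ (∀ y, R.degreeOf y ≤ k) ∧
    (∀ m, ∃ c : Fin k → 𝓞 L, (∀ i (φ : L →+* ℂ), ‖φ (c i : L)‖ ≤ T ^ (k : ℝ)) ∧
      R.coeff m = ∑ i, ξ i * io (c i : L)) ∧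
    MvPolynomial.eval (fun q => value (α q.1) (l q.1) q.2 fun j => q.1 (s j)) R = 0}

/-- **Gel'fond's conjecture for all conjugates at almost all points.** Let `K` be a number field and let a family of
algebraic functions and logarithms as above be given for every complex embedding `φ` of `K` (there is no condition
between different `φ`).

There are `ω → ∞` and `C` such that for all large `T`, all number fields `L` of degree at most `ω T`, with an embedding
in the complex numbers such that `L` contains all conjugates of `K`, all complex numbers `ξ i`, `i < ω T`, and all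
integral points `b` of `K` of house at most `T` with nonzero coordinates, the proportion of the integral points `x` of
`K` of house at most `T` such that `x / b` is exceptional is at most `C T ^ (-1 + 2 / ω T)`. So for 100 percent of the
points `s = x / b` the `(a + n) [K : ℚ]` numbers have no nonzero polynomial relation of growing degree and height,
relative to arbitrary constants. -/
theorem result (K X : Type) [Field K] [NumberField K] [Fintype X] [DecidableEq X] [Nonempty X] (a n : ℕ)
    (U : (K →+* ℂ) → Set (X → ℂ)) (α : (K →+* ℂ) → Fin a → (X → ℂ) → ℂ) (l : (K →+* ℂ) → Fin n → (X → ℂ) → ℂ)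
    (h : ∀ φ, Family (U φ) (α φ) (l φ)) :
    ∃ (ω : ℝ → ℕ) (C T₀ : ℝ), Tendsto ω atTop atTop ∧ Monotone ω ∧ ∀ T, T₀ ≤ T → 0 < ω T ∧
      (Points K X T).Finite ∧ (Points K X T).Nonempty ∧
      ∀ (L : Type) [Field L] [NumberField L], Module.finrank ℚ L ≤ ω T → ∀ io : L →+* ℂ,
        (∀ φ : K →+* ℂ, ∃ φ' : K →+* L, io.comp φ' = φ) →
        ∀ (ξ : Fin (ω T) → ℂ), ∀ b ∈ Points K X T, (∀ j, b j ≠ 0) →
          ({x ∈ Points K X T | (fun j => (x j : K) / (b j : K)) ∈ Exceptional U α l L io (ω T) ξ T}.ncard : ℝ) ≤
            C * T ^ (-1 + 2 / (ω T : ℝ)) * (Points K X T).ncard := by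
  classical
  have hI : ∀ φ : K →+* ℂ, N207.AX.Ind (U φ) (value (α φ) (l φ)) := by
    intro φ
    have h1 := N207.AX.gelfond_ind (N945.AX.ell (N301.AX.ind N878.AX.line)) (h φ).isOpen (h φ).isPreconnected
      (h φ).nonempty (h φ).analytic_α (h φ).analytic_l (h φ).algebraic_α (h φ).algebraic_exp (h φ).independent_α
      (h φ).independent_l
    have h2 : (fun y z => Sum.elim (fun i => Complex.exp (α φ i z)) (fun i => l φ i z) y :
        Fin a ⊕ Fin n → (X → ℂ) → ℂ) = value (α φ) (l φ) := by
      funext y z
      rcases y with i | i <;> rfl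
    rwa [h2] at h1
  have han : ∀ φ y, AnalyticOnNhd ℂ (value (α φ) (l φ) y) (U φ) := by
    intro φ y
    rcases y with i | i
    · exact fun z hz => ((h φ).analytic_α i z hz).cexp
    · exact (h φ).analytic_l i
  obtain ⟨c, C₁, hc, hC₁, hlow⟩ := N227.CF.low K X
  obtain ⟨ω, C, T₀, hC, h1, h2, h3⟩ := N207.AX.conj_ind (fun φ => (h φ).isPreconnected)
    (fun φ => (h φ).isOpen) (fun φ => (h φ).nonempty) han hI
  refine ⟨ω, C / c, max T₀ 1, h1, h2, fun T hT => ⟨(h3 T ((le_max_left _ _).trans hT)).1, ?_, ?_, ?_⟩⟩
  · exact (hlow T ((le_max_right _ _).trans hT)).1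
  · refine ⟨0, fun j => ?_⟩
    have h5 : ((0 : X → 𝓞 K) j : K) = 0 := by simp
    have h6 : house (0 : K) = 0 := by simp [house]
    rw [h5, h6]
    exact zero_le_one.trans ((le_max_right _ _).trans hT)
  · intro L _ _ hL io hemb ξ b hb hb0
    have hT1 : 1 ≤ T := (le_max_right _ _).trans hT
    have hTp : 0 < T := by linarith
    obtain ⟨-, h4⟩ := (h3 T ((le_max_left _ _).trans hT)).2 L hL io hemb ξ b (fun j => ⟨hb0 j, hb j⟩)
    obtain ⟨-, h5, -⟩ := hlow T hT1
    have h6 : ({x ∈ Points K X T | (fun j => (x j : K) / (b j : K)) ∈ Exceptional U α l L io (ω T) ξ T}.ncard : ℝ) ≤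
        C * T ^ ((Module.finrank ℚ K * Fintype.card X : ℝ) - 1 + 2 * ((ω T : ℝ)⁻¹)) := h4
    refine h6.trans ?_
    have h7 : (T : ℝ) ^ ((Module.finrank ℚ K * Fintype.card X : ℝ) - 1 + 2 * ((ω T : ℝ)⁻¹)) =
        T ^ (-1 + 2 / (ω T : ℝ)) * T ^ (Module.finrank ℚ K * Fintype.card X) := by
      rw [← Real.rpow_natCast T (Module.finrank ℚ K * Fintype.card X), ← Real.rpow_add hTp]
      congr 1
      push_cast
      ring
    rw [h7]
    have h8 : T ^ (Module.finrank ℚ K * Fintype.card X) ≤ ((Points K X T).ncard : ℝ) / c := by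
      rw [le_div_iff₀ hc, mul_comm]
      exact h5
    calc C * (T ^ (-1 + 2 / (ω T : ℝ)) * T ^ (Module.finrank ℚ K * Fintype.card X)) ≤
          C * (T ^ (-1 + 2 / (ω T : ℝ)) * (((Points K X T).ncard : ℝ) / c)) :=
          mul_le_mul_of_nonneg_left (mul_le_mul_of_nonneg_left h8 (by positivity)) hC
      _ = _ := by ring

end Pool.Agent.Results.MP_c82530_nt.AllConjugates
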