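import Mathlib
import Pool.Agent.N778.XE.Count

set_option autoImplicit false

/-!
# Exponentials and logarithms of algebraic numbers, and the integrals `∫_0^β s^l exp (-x e^s) ds`

For real `x > 0`, `β` and `l ≥ 0` let `J_l(x, β) = ∫_0^β s^l exp (-x e^s) ds`; for `β = log b` this is
`∫_1^b (log u)^l e^(-x u) du / u`. For `l ≥ 1` let `E_l(x) = ∑_{m ≥ 1} (-1)^(m-1) x^m / (m! m^l)`.

For complex numbers `a_1, …, a_n` with `a_n ≠ 0` let `I(a_1, …, a_n)` be the iterated integral of the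
forms `ω_{a_1}(t_1), …, ω_{a_n}(t_n)` over `1 > t_1 > … > t_n > 0`, where `ω_0 = dt / t` and
`ω_a = (exp (a t) - 1) dt / t` for `a ≠ 0`. Let `𝓕` be the field which is generated by all algebraic
numbers, all numbers `exp α`, `α` algebraic, and all numbers `I(a_1, …, a_n)` with algebraic
`a_1, …, a_n`, none of which is a negative real number.

(1) Let `y_1, …, y_r` be complex numbers and let `V` be a group of real numbers `β` which are algebraic
over `𝓕(y_1, …, y_r)` and for which `e^β` is algebraic (so `V` is a group of real logarithms of algebraic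
numbers). Let `X` be a set of positive algebraic numbers, and `x / y` not in `exp (V)` for distinct `x, y`
in `X` (for example `X = {1}`). At most `r` of the numbers `y_1, …, y_r`, `J_l(x, β)` (`l ≥ 0`, `x` in
`X`, `β ≠ 0` in `V`) and `E_l(x)` (`l ≥ 1`, `x` in `X`) are algebraic over `𝓕`. For every finite set `A`
of these numbers `J_l(x, β)`, `E_l(x)` (with different names) the transcendence degree of
`𝓕(y_1, …, y_r, A)` over `𝓕` is at least `|A|`.

(2) Gel'fond's conjecture: let `α_1, …, α_n` be algebraic and linearly independent over `ℚ`, and let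
`b_1, …, b_n` be positive algebraic numbers. Let `V = ℚ log b_1 + … + ℚ log b_n`, and `X` as in (1). At
most `n` of the numbers `J_l(x, β)`, `E_l(x)` of (1) are algebraic over `𝓕`; if `e^{α_1}, …, e^{α_n}`,
`log b_1, …, log b_n` are algebraically dependent over the field of algebraic numbers, then at most
`n - 1` of them are algebraic over `𝓕`.

(3) The case `n = 1`: let `α ≠ 0` and `b > 0` be algebraic. Either `e^α` and `log b` are algebraically
independent, or all the numbers `J_l(x, q log b)`, `l ≥ 0`, `x` in `X`, `q log b ≠ 0`, `q` rational, and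
`E_l(x)`, `l ≥ 1`, `x` in `X`, are algebraically independent over `𝓕`.
-/

namespace Pool.Agent.Results.MP_c82530_nt.IntegralsToLogarithms

open Set

/-- `J_l(x, β) = ∫_0^β s^l exp (-x e^s) ds` -/
noncomputable def J (l : ℕ) (x β : ℝ) : ℝ := ∫ s in (0 : ℝ)..β, s ^ l * Real.exp (-(x * Real.exp s))

/-- `E_l(x) = ∑_{m ≥ 1} (-1)^(m-1) x^m / (m! m^l)` -/
noncomputable def E (l : ℕ) (x : ℝ) : ℝ :=
  ∑' m : ℕ, -(-x) ^ (m + 1) / ((m + 1).factorial * ((m : ℝ) + 1) ^ l)

/-- the iterated integral of `ω_{a_1}(t_1), …, ω_{a_n}(t_n)` over `t > t_1 > … > t_n > 0` -/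
noncomputable def iterated : List ℂ → ℝ → ℂ
  | [], _ => 1
  | a :: v, t => ∫ s in (0 : ℝ)..t, (if a = 0 then 1 else Complex.exp (a * s) - 1) * iterated v s / s

/-- `I(a_1, …, a_n)` -/
noncomputable def I (w : List ℂ) : ℂ := iterated w 1

/-- the entries are algebraic, the last one is not zero, and none of them is a negative real number -/
def Admissible (w : List ℂ) : Prop :=
  (∀ a ∈ w, IsAlgebraic ℚ a) ∧ (∀ h : w ≠ [], w.getLast h ≠ 0) ∧ ∀ a ∈ w, ¬ (a.im = 0 ∧ a.re < 0)

/-- the field `𝓕` -/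
noncomputable def baseField : IntermediateField ℚ ℂ := IntermediateField.adjoin ℚ
  ({z | IsAlgebraic ℚ z} ∪ {z | ∃ b : ℂ, IsAlgebraic ℚ b ∧ z = Complex.exp b} ∪
    {z | ∃ w : List ℂ, Admissible w ∧ z = I w})

/-- `z` is algebraic over `𝓕` -/
def AlgebraicOver (z : ℂ) : Prop := IsAlgebraic baseField z

/-- `V` is a group of real numbers `β` which are algebraic over `𝓕(Y)` and for which `e^β` is algebraic -/
def LogGroup (Y : Set ℂ) (V : AddSubgroup ℝ) : Prop :=
  ∀ β ∈ V, IsAlgebraic (IntermediateField.adjoin baseField Y) (β : ℂ) ∧ IsAlgebraic ℚ (Real.exp β)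

/-- `X` consists of positive algebraic numbers, and `x / y` is not in `exp (V)` for distinct `x, y` in `X` -/
def Points (V : AddSubgroup ℝ) (X : Set ℝ) : Prop :=
  (∀ x ∈ X, 0 < x ∧ IsAlgebraic ℚ x) ∧ ∀ x ∈ X, ∀ y ∈ X, ∀ β ∈ V, x = y * Real.exp β → x = y

/-- the names `((x, β), l)` with `x` in `X` and `β` in `V` -/
def names (V : AddSubgroup ℝ) (X : Set ℝ) : Set ((ℝ × ℝ) × ℕ) := {p | p.1.1 ∈ X ∧ p.1.2 ∈ V}

open Classical in
/-- the number with the name `((x, β), l)`: `J_l(x, β)` if `β ≠ 0`, and `E_{l+1}(x)` if `β = 0` -/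
noncomputable def number (p : (ℝ × ℝ) × ℕ) : ℝ := if p.1.2 = 0 then E (p.2 + 1) p.1.1 else J p.2 p.1.1 p.1.2

/-- `ℚ log b_1 + … + ℚ log b_n` -/
noncomputable def logSpan {n : ℕ} (b : Fin n → ℝ) : AddSubgroup ℝ :=
  (Submodule.span ℚ (range fun i => Real.log (b i))).toAddSubgroup

open Pool.Agent.N902.EW Pool.Agent.N778.XE

theorem iterated_eq (w : List ℂ) : ∀ t : ℝ, iterated w t = II w t := by
  induction w with
  | nil => intro t; rfl
  | cons a v ih =>
    intro t
    rw [iterated, II]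
    refine intervalIntegral.integral_congr fun s _ => ?_
    show (if a = 0 then 1 else Complex.exp (a * s) - 1) * iterated v s / s = _
    rw [ih]

theorem baseField_eq : baseField = FX := by
  rw [baseField, FX, GX]
  congr 2
  ext z
  constructor
  · rintro ⟨w, hw, rfl⟩
    exact ⟨w, ⟨hw.1, hw.2.1⟩, hw.2.2, iterated_eq w 1⟩
  · rintro ⟨w, hw, hneg, rfl⟩
    exact ⟨w, ⟨hw.1, hw.2, hneg⟩, (iterated_eq w 1).symm⟩

theorem over_iff (z : ℂ) : AlgebraicOver z ↔ IsAlgebraic FX z := by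
  unfold AlgebraicOver
  rw [baseField_eq]

theorem number_eq (p : (ℝ × ℝ) × ℕ) : number p = NumX p.1.1 p.1.2 p.2 := by
  rw [number, NumX]
  rfl

/-- the translation of the names -/
def tr {V : AddSubgroup ℝ} {X : Set ℝ} (p : names V X) : (X × V) × ℕ := ((⟨p.1.1.1, p.2.1⟩, ⟨p.1.1.2, p.2.2⟩), p.1.2)

theorem tr_inj {V : AddSubgroup ℝ} {X : Set ℝ} : Function.Injective (tr (V := V) (X := X)) := by
  rintro ⟨⟨⟨x, β⟩, l⟩, hp⟩ ⟨⟨⟨y, γ⟩, m⟩, hr⟩ h
  have e1 : x = y := congrArg (fun z => z.1.1.1) h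
  have e2 : β = γ := congrArg (fun z => z.1.2.1) h
  have e3 : l = m := congrArg (fun z => z.2) h
  subst e1 e2 e3
  rfl

/-- the translation of the names, the other direction -/
def tr' {V : AddSubgroup ℝ} {X : Set ℝ} (p : (X × V) × ℕ) : names V X := ⟨((p.1.1.1, p.1.2.1), p.2), p.1.1.2, p.1.2.2⟩

theorem cov {Y : Set ℂ} {V : AddSubgroup ℝ} (hV : LogGroup Y V) {X : Set ℝ} (hX : Points V X) :
    ∃ s : names V X → ℂ, AlgebraicIndependent FX s ∧ Cov FX s Y (fun p : names V X => ((number p : ℝ) : ℂ)) := by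
  classical
  obtain ⟨s, hs, hc⟩ := cov_X Y V (fun β hβ => by
    have h1 := hV β hβ
    rw [baseField_eq] at h1
    exact ⟨mem_clf.2 h1.1, h1.2⟩) X hX.1 hX.2
  refine ⟨s ∘ tr, hs.comp _ tr_inj, fun T => ?_⟩
  obtain ⟨T', h1, h2⟩ := hc (T.image tr)
  refine ⟨T'.image tr', fun p hp => ?_, fun p hp => ?_⟩
  · exact Finset.mem_image.2 ⟨tr p, h1 (Finset.mem_image_of_mem _ hp), rfl⟩
  · obtain ⟨q, hq, rfl⟩ := Finset.mem_image.1 hp
    have h3 := h2 q hq
    have h4 : (fun p : (X × V) × ℕ => ((NumX p.1.1.1 p.1.2.1 p.2 : ℝ) : ℂ)) '' (T' : Set ((X × V) × ℕ)) ⊆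
        (fun p : names V X => ((number p : ℝ) : ℂ)) '' ((T'.image tr' : Finset (names V X)) : Set (names V X)) := by
      rintro _ ⟨z, hz, rfl⟩
      refine ⟨tr' z, Finset.mem_image_of_mem _ hz, ?_⟩
      show ((number ((z.1.1.1, z.1.2.1), z.2) : ℝ) : ℂ) = _
      rw [number_eq]
    exact clf_mono (union_subset_union_right _ h4) h3

theorem logSpan_ok {n : ℕ} {b : Fin n → ℝ} (hb : ∀ i, 0 < b i ∧ IsAlgebraic ℚ (b i)) :
    LogGroup (range fun i => ((Real.log (b i) : ℝ) : ℂ)) (logSpan b) := by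
  intro β hβ
  have hβ' : β ∈ Submodule.span ℚ (range fun i => Real.log (b i)) := hβ
  rw [baseField_eq]
  suffices h : (β : ℂ) ∈ clf FX (range fun i => ((Real.log (b i) : ℝ) : ℂ)) ∧ IsAlgebraic ℚ (Real.exp β) from
    ⟨mem_clf.1 h.1, h.2⟩
  induction hβ' using Submodule.span_induction with
  | mem z hz =>
    obtain ⟨i, rfl⟩ := hz
    refine ⟨subset_clf _ ⟨i, rfl⟩, ?_⟩
    rw [Real.exp_log (hb i).1]
    exact (hb i).2
  | zero =>
    refine ⟨?_, ?_⟩
    · rw [Complex.ofReal_zero]; exact (clf FX _).zero_mem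
    · rw [Real.exp_zero]; exact isAlgebraic_one
  | add z w _ _ hz hw =>
    refine ⟨?_, ?_⟩
    · rw [Complex.ofReal_add]; exact (clf FX _).add_mem (hz ‹_›).1 (hw ‹_›).1
    · rw [Real.exp_add]; exact (hz ‹_›).2.mul (hw ‹_›).2
  | smul q z _ hz =>
    have hz' := hz ‹_›
    have e1 : q • z = (q : ℝ) * z := by rw [Rat.smul_def]
    refine ⟨?_, ?_⟩
    · rw [e1, Complex.ofReal_mul]
      refine (clf FX _).mul_mem ?_ hz'.1
      have : (((q : ℝ)) : ℂ) = ((q : ℚ) : ℂ) := by norm_cast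
      rw [this]
      exact SubfieldClass.ratCast_mem _ q
    · refine IsAlgebraic.of_pow (n := q.den) q.den_pos ?_
      have h2 : Real.exp (q • z) ^ q.den = Real.exp z ^ q.num := by
        rw [e1, ← Real.exp_nat_mul, ← Real.rpow_intCast, ← Real.exp_mul]
        congr 1
        have h3 : (q : ℝ) = (q.num : ℝ) / (q.den : ℝ) := by exact_mod_cast (Rat.num_div_den q).symm
        have h4 : (q.den : ℝ) ≠ 0 := by exact_mod_cast q.den_nz
        rw [h3]
        field_simp
      rw [h2]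
      rcases le_or_gt 0 q.num with h3 | h3
      · lift q.num to ℕ using h3 with m
        rw [zpow_natCast]
        exact hz'.2.pow m
      · obtain ⟨m, hm⟩ := Int.exists_eq_neg_ofNat h3.le
        rw [hm, zpow_neg, zpow_natCast]
        exact (hz'.2.pow m).inv

theorem part1 {r : ℕ} (y : Fin r → ℂ) (V : AddSubgroup ℝ) (hV : LogGroup (range y) V) (X : Set ℝ) (hX : Points V X) :
    {n : Fin r ⊕ names V X | Sum.elim (fun j => AlgebraicOver (y j)) (fun p => AlgebraicOver (number p)) n}.encard ≤ r ∧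
    ∀ A : Finset (names V X), (A.card : Cardinal) ≤ Algebra.trdeg baseField (IntermediateField.adjoin baseField
      (range y ∪ (fun p : names V X => ((number p : ℝ) : ℂ)) '' (A : Set (names V X)))) := by
  obtain ⟨s, hs, hc⟩ := cov hV hX
  refine ⟨?_, fun A => ?_⟩
  · have h1 := cover_count2 hs hc
    refine le_trans (encard_le_encard ?_) h1
    rintro (j | p) hn
    · exact (over_iff _).1 hn
    · exact (over_iff _).1 hn
  · rw [baseField_eq]
    exact trdeg_of_eRk (cover_rank hs hc A)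

theorem part2 {n : ℕ} {α : Fin n → ℂ} {b : Fin n → ℝ} (hα : ∀ i, IsAlgebraic ℚ (α i)) (hli : LinearIndependent ℚ α)
    (hb : ∀ i, 0 < b i ∧ IsAlgebraic ℚ (b i)) (X : Set ℝ) (hX : Points (logSpan b) X) :
    {p : names (logSpan b) X | AlgebraicOver (number p)}.encard ≤ n ∧
    (¬ AlgebraicIndependent (algebraicClosure ℚ ℂ)
      (Sum.elim (fun i => ((Real.log (b i) : ℝ) : ℂ)) (fun i => Complex.exp (α i))) →
      {p : names (logSpan b) X | AlgebraicOver (number p)}.encard + 1 ≤ n) := by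
  obtain ⟨s, hs, hc⟩ := cov (logSpan_ok hb) hX
  have h1 := cover_count hs hc
  have h2 : {p : names (logSpan b) X | AlgebraicOver (number p)}.encard ≤
      (Ma FX).eRk (range fun i => ((Real.log (b i) : ℝ) : ℂ)) :=
    (encard_le_encard fun p hp => (over_iff _).1 hp).trans h1
  refine ⟨h2.trans ?_, fun h => ?_⟩
  · refine (Matroid.eRk_le_encard _ _).trans ?_
    rw [← image_univ]
    refine (encard_image_le _ _).trans ?_
    rw [encard_univ, ENat.card_eq_coe_fintype_card, Fintype.card_fin]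
  · exact (add_le_add_left h2 1).trans (rk_of_dep (dep_over hα hli h))

theorem part3 {α : ℂ} (hα : IsAlgebraic ℚ α) (hα0 : α ≠ 0) {b : ℝ} (hb : 0 < b) (hba : IsAlgebraic ℚ b) (X : Set ℝ)
    (hX : Points (logSpan fun _ : Fin 1 => b) X) :
    AlgebraicIndependent (algebraicClosure ℚ ℂ) ![Complex.exp α, ((Real.log b : ℝ) : ℂ)] ∨
      AlgebraicIndependent baseField (fun p : names (logSpan fun _ : Fin 1 => b) X => ((number p : ℝ) : ℂ)) := by
  by_cases h : AlgebraicIndependent (algebraicClosure ℚ ℂ) ![Complex.exp α, ((Real.log b : ℝ) : ℂ)]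
  · exact Or.inl h
  · right
    have h1 : ¬ AlgebraicIndependent (algebraicClosure ℚ ℂ)
        (Sum.elim (fun _ : Fin 1 => ((Real.log b : ℝ) : ℂ)) (fun _ : Fin 1 => Complex.exp α)) := by
      intro h1
      refine h ?_
      have h2 := h1.comp (![Sum.inr 0, Sum.inl 0] : Fin 2 → Fin 1 ⊕ Fin 1) (by
        intro i j hij
        fin_cases i <;> fin_cases j <;> simp_all)
      convert h2 using 1
      funext i
      fin_cases i <;> rfl
    have hli : LinearIndependent ℚ (fun _ : Fin 1 => α) := by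
      rw [linearIndependent_unique_iff]
      exact hα0
    have h2 := dep_over (fun _ => hα) hli h1
    have h3 : IsAlgebraic FX ((Real.log b : ℝ) : ℂ) := by
      by_contra h4
      refine h2 ?_
      rw [algebraicIndependent_unique_type_iff]
      exact h4
    have hV : LogGroup ∅ (logSpan fun _ : Fin 1 => b) := by
      intro β hβ
      have h4 := logSpan_ok (b := fun _ : Fin 1 => b) (fun _ => ⟨hb, hba⟩) β hβ
      rw [baseField_eq] at h4 ⊢
      refine ⟨mem_clf.1 (clf_le ?_ (mem_clf.2 h4.1)), h4.2⟩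
      rintro _ ⟨_, rfl⟩
      exact clf_of_alg h3
    obtain ⟨s, hs, hc⟩ := cov hV hX
    rw [baseField_eq]
    exact cover_ai hs hc

theorem result :
    -- (1)
    (∀ (r : ℕ) (y : Fin r → ℂ) (V : AddSubgroup ℝ), LogGroup (range y) V → ∀ X : Set ℝ, Points V X →
      {n : Fin r ⊕ names V X |
        Sum.elim (fun j => AlgebraicOver (y j)) (fun p => AlgebraicOver (number p)) n}.encard ≤ r ∧
      ∀ A : Finset (names V X), (A.card : Cardinal) ≤ Algebra.trdeg baseField (IntermediateField.adjoin baseField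
        (range y ∪ (fun p : names V X => ((number p : ℝ) : ℂ)) '' (A : Set (names V X))))) ∧
    -- (2)
    (∀ (n : ℕ) (α : Fin n → ℂ) (b : Fin n → ℝ), (∀ i, IsAlgebraic ℚ (α i)) → LinearIndependent ℚ α →
      (∀ i, 0 < b i ∧ IsAlgebraic ℚ (b i)) → ∀ X : Set ℝ, Points (logSpan b) X →
      {p : names (logSpan b) X | AlgebraicOver (number p)}.encard ≤ n ∧
      (¬ AlgebraicIndependent (algebraicClosure ℚ ℂ)
        (Sum.elim (fun i => ((Real.log (b i) : ℝ) : ℂ)) (fun i => Complex.exp (α i))) →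
        {p : names (logSpan b) X | AlgebraicOver (number p)}.encard + 1 ≤ n)) ∧
    -- (3)
    (∀ (α : ℂ) (b : ℝ), IsAlgebraic ℚ α → α ≠ 0 → 0 < b → IsAlgebraic ℚ b → ∀ X : Set ℝ,
      Points (logSpan fun _ : Fin 1 => b) X →
      AlgebraicIndependent (algebraicClosure ℚ ℂ) ![Complex.exp α, ((Real.log b : ℝ) : ℂ)] ∨
        AlgebraicIndependent baseField
          (fun p : names (logSpan fun _ : Fin 1 => b) X => ((number p : ℝ) : ℂ))) :=
  ⟨fun _ y V hV X hX => part1 y V hV X hX, fun _ _ _ hα hli hb X hX => part2 hα hli hb X hX,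
    fun _ _ hα hα0 hb hba X hX => part3 hα hα0 hb hba X hX⟩

end Pool.Agent.Results.MP_c82530_nt.IntegralsToLogarithms
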