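import Mathlib
import Pool.Agent.X255.RH.Main
import Pool.Agent.X255.RH.LogR
import Pool.Agent.H340R2.LW2

/-!
# Gel'fond's conjecture at all roots of almost all integral polynomials

Gel'fond's conjecture says that the exponentials `e^{α_1}, …, e^{α_n}` of algebraic numbers and the logarithms `log β_1, …, log β_n` of algebraic
numbers are algebraically independent if both the `α_i` and the `log β_i` are linearly independent over `ℚ`.

Let `x` run through all the roots outside `(-∞, 0]` of an integral polynomial of degree `g` (all algebraic numbers of degree `g` and their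
conjugates are of this kind) and let `β = x + u_j`, where `u_0 = 0` or other non-negative numbers are given. For almost all polynomials with
coefficients at most `T` the logarithms `log (x + u_j)` for ALL these roots and the exponentials of all algebraic numbers satisfy together
no algebraic relation over number fields whose degree and whose field degree is at most `ω(T)`, whose height is at most `T ^ ω(T)` and in which
only the exponentials `e^{α_b}`, `b < ω(T)`, occur, where `α_0, α_1, …` is any sequence of distinct algebraic numbers (for instance an enumeration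
of all algebraic numbers), and `ω(T) → ∞`. A polynomial in exponentials is a linear combination of exponentials.

The proof is an application of `Pool.Agent.X255.RH.main_all` (values of algebraically independent functions at the roots of almost all
polynomials) and of the theorem of Lindemann and Weierstrass (`Pool.Agent.H340R2.LW`).
-/

set_option autoImplicit false

open Polynomial Filter Topology NumberField

namespace Pool.Agent.Results.MP_c82530_nt.LogsAtAllRoots

/-- The integral vectors `a = (a_0, …, a_g)` with `|a_i| ≤ T`. -/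
noncomputable def box (g T : ℕ) : Finset (Fin (g + 1) → ℤ) := Fintype.piFinset fun _ => Finset.Icc (-(T : ℤ)) (T : ℤ)

/-- The polynomial `a_0 + a_1 x + … + a_g x^g`. -/
noncomputable def poly {g : ℕ} (a : Fin (g + 1) → ℤ) : ℂ[X] := ∑ i, C (a i : ℂ) * X ^ (i : ℕ)

/-- The roots of the polynomial outside `(-∞, 0]`. -/
noncomputable def roots {g : ℕ} (a : Fin (g + 1) → ℤ) : Finset ℂ := by
  classical exact (poly a).roots.toFinset.filter fun z => z ∈ Complex.slitPlane

/-- The numbers `x q` and the exponentials `e^{α_b}`, `b < k`, satisfy no nontrivial relation of degree at most `k` in each of the `x q` and of degree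
`1` in the exponentials, whose coefficients are integers of a number field of degree at most `k` with all conjugates at most `T ^ k`. -/
def NoRelation {Q : Type} [Fintype Q] [DecidableEq Q] (α : ℕ → ℂ) (k : ℕ) (T : ℝ) (x : Q → ℂ) : Prop :=
  ∀ (F : Type) [Field F] [NumberField F], Module.finrank ℚ F ≤ k → ∀ (io : F →+* ℂ)
    (c : (Q → Fin (k + 1)) → Fin k → 𝓞 F), (∀ l b (φ : F →+* ℂ), ‖φ (c l b : F)‖ ≤ T ^ k) →
    ∑ l, (∑ b : Fin k, Complex.exp (α b) * io (c l b : F)) * ∏ q, x q ^ (l q : ℕ) = 0 → ∀ l b, c l b = 0

/-- The polynomial with the coefficients `a` has degree `g` and simple roots, and there is no relation between the exponentials and the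
logarithms `log (x + u_j)` at all its roots `x` outside `(-∞, 0]` together. -/
def Good {g s : ℕ} (u : Fin s → ℝ) (α : ℕ → ℂ) (k : ℕ) (T : ℝ) (a : Fin (g + 1) → ℤ) : Prop :=
  a (Fin.last g) ≠ 0 ∧ (poly a).Separable ∧
    NoRelation α k T fun q : {x // x ∈ roots a} × Fin s => Complex.log ((q.1 : ℂ) + u q.2)

theorem preconn : IsPreconnected Complex.slitPlane :=
  (Complex.starConvex_one_slitPlane.isPathConnected Complex.one_mem_slitPlane).isConnected.isPreconnected

theorem mem_slit {x : ℂ} (hx : x ∈ Complex.slitPlane) {u : ℝ} (hu : 0 ≤ u) : x + u ∈ Complex.slitPlane := by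
  rw [Complex.mem_slitPlane_iff] at hx ⊢
  rcases hx with h | h
  · left
    simp
    linarith
  · right
    simpa using h

theorem mult_ind {s : ℕ} (u : Fin s → ℝ) (hu : Function.Injective u) (m n : Fin s → ℕ) (c : ℂ)
    (h : ∏ j, (X + C ((u j : ℝ) : ℂ)) ^ m j * (1 : ℂ[X]) ^ n j = C c * ∏ j, (X + C ((u j : ℝ) : ℂ)) ^ n j * (1 : ℂ[X]) ^ m j) :
    m = n := by
  classical
  simp only [one_pow, mul_one] at h
  have hne : ∀ e : Fin s → ℕ, ∏ j, (X + C ((u j : ℝ) : ℂ)) ^ e j ≠ 0 := fun e =>
    Finset.prod_ne_zero_iff.2 fun j _ => pow_ne_zero _ (X_add_C_ne_zero _)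
  have hc : c ≠ 0 := by
    rintro rfl
    rw [C_0, zero_mul] at h
    exact hne m h
  have hmult : ∀ (e : Fin s → ℕ) (j : Fin s), (∏ j, (X + C ((u j : ℝ) : ℂ)) ^ e j).rootMultiplicity (-((u j : ℝ) : ℂ)) = e j := by
    intro e j
    rw [← count_roots]
    have h1 : (∏ j, (X + C ((u j : ℝ) : ℂ)) ^ e j).roots = ∑ i, e i • ({-((u i : ℝ) : ℂ)} : Multiset ℂ) := by
      rw [roots_prod _ _ (hne e)]
      rw [Multiset.bind, Multiset.join]
      change Finset.sum Finset.univ (fun i => ((X + C ((u i : ℝ) : ℂ)) ^ e i).roots) = _
      refine Finset.sum_congr rfl fun i _ => ?_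
      rw [roots_pow, roots_X_add_C]
    rw [h1, Multiset.count_sum', Finset.sum_eq_single j]
    · simp
    · intro i _ hij
      rw [Multiset.count_nsmul, Multiset.count_singleton, if_neg, mul_zero]
      intro h2
      apply hij
      apply hu
      have h3 := neg_inj.1 h2
      exact_mod_cast h3.symm
    · intro h
      exact absurd (Finset.mem_univ j) h
  funext j
  have h1 := hmult m j
  rw [h, ← hmult n j] at *
  rw [rootMultiplicity_mul (mul_ne_zero (C_ne_zero.2 hc) (hne n)), rootMultiplicity_C, zero_add] at h1
  exact h1.symm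

theorem ind {s : ℕ} (u : Fin s → ℝ) (hu : Function.Injective u) (hu0 : ∀ j, 0 ≤ u j) :
    Pool.Agent.X255.RH.Indep Complex.slitPlane (fun (j : Fin s) (x : ℂ) => Complex.log (x + u j)) := by
  refine Pool.Agent.X255.RH.logR_indep preconn Complex.isOpen_slitPlane ⟨1, Complex.one_mem_slitPlane⟩
    (fun j => X + C ((u j : ℝ) : ℂ)) (fun _ => 1) (fun j => X_add_C_ne_zero _) (fun _ => one_ne_zero) (mult_ind u hu) _
    (fun j x hx => ?_) fun j x hx => ?_
  · exact AnalyticAt.clog (analyticAt_id.add analyticAt_const) (mem_slit hx (hu0 j))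
  · rw [Complex.exp_log (Complex.slitPlane_ne_zero (mem_slit hx (hu0 j)))]
    simp

open scoped Classical in
/-- **All roots of almost all polynomials.** Let `g ≥ 1`, let `u_1, …, u_s ≥ 0` be distinct real numbers and let `α_0, α_1, …` be distinct algebraic
numbers. There is a function `ω(T) → ∞` such that among the `(2 T + 1)^(g + 1)` integral polynomials with coefficients at most `T` at most the
proportion `1 / ω(T)` is not good. -/
theorem result (g : ℕ) (hg : 0 < g) (s : ℕ) (u : Fin s → ℝ) (hu : Function.Injective u) (hu0 : ∀ j, 0 ≤ u j)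
    (α : ℕ → ℂ) (hα : ∀ b, IsAlgebraic ℚ (α b)) (hinj : Function.Injective α) :
    ∃ ω : ℕ → ℕ, Tendsto ω atTop atTop ∧ Monotone ω ∧ ∀ T : ℕ,
      ω T * ((box g T).filter fun a => ¬ Good u α (ω T) T a).card ≤ (box g T).card := by
  obtain ⟨ω, h1, h2, h3⟩ := Pool.Agent.X255.RH.main_all hg preconn Complex.isOpen_slitPlane (fun _ => Complex.slitPlane)
    (fun _ => Pool.Agent.X255.RH.tame_slit)
    (f := fun (j : Fin s) (x : ℂ) => Complex.log (x + u j))
    (fun j x hx => AnalyticAt.clog (analyticAt_id.add analyticAt_const) (mem_slit hx (hu0 j)))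
    (ind u hu hu0) (fun b => Complex.exp (α b))
  refine ⟨ω, h1, h2, fun T => le_trans ?_ (h3 T)⟩
  refine Nat.mul_le_mul_left _ (Finset.card_le_card ?_)
  intro a ha
  rw [Finset.mem_filter] at ha ⊢
  refine ⟨ha.1, fun hgood => ha.2 ?_⟩
  obtain ⟨ha0, hsep, hno⟩ := hgood
  refine ⟨ha0, hsep, fun F _ _ hF io c hc hrel l b => ?_⟩
  have h4 := hno F hF io c hc hrel l
  have h5 := Pool.Agent.H340R2.LW.lindemann_weierstrass (Finset.univ : Finset (Fin (ω T))) (fun b => α b)
    (fun b => io (c l b : F)) (fun b _ => hα b)
    (fun b _ => by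
      have h6 : IsAlgebraic ℚ (c l b : F) := Algebra.IsAlgebraic.isAlgebraic _
      exact h6.algHom io.toRatAlgHom)
    (fun i _ j _ h => Fin.ext (hinj h)) (by
      rw [← h4]
      refine Finset.sum_congr rfl fun b _ => ?_
      ring) b (Finset.mem_univ b)
  have h7 : (c l b : F) = 0 := (map_eq_zero io).1 h5
  exact_mod_cast h7

end Pool.Agent.Results.MP_c82530_nt.LogsAtAllRoots
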