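import Pool.Agent.N733.TG.M
import Pool.Agent.Results.MP_c82530_nt.NumberFieldTuples

/-!
# Gel'fond's conjecture in bounded degree for the values of multiplicative functions

Let `F_(i,j)` be positive multiplicative functions of at most polynomial growth such that `F_(i,j) p ≤ M p` for the large
primes `p`, with different values at different large primes; for example Euler's function or the sum of the divisors. Let
`ω_0 ≠ 0, ω_1, …, ω_m` be algebraic numbers, for instance an integral basis of a number field, and `θ_1, …, θ_r` distinct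
algebraic numbers. For all choices of the `k (m + 1)` integers `n_(i,j)` in `[1, N]` but `N^(k (m + 1)) / (log N)^A`, for all
choices of the signs, let `β_i = ± F_(i,0)(n_(i,0)) ω_0 ± … ± F_(i,m)(n_(i,m)) ω_m`; then the numbers `e^α_1, …, e^α_l` and the
logarithms of the `k r` numbers `β_i + θ_s` (for every choice of these logarithms) satisfy no polynomial relation of degree
at most `δ` over a number field of degree at most `d`. Here `α_1, …, α_l` are any `ℚ`-linearly independent algebraic numbers,
and the bound `N ≥ N₀` does not depend on them. The values of the `F_(i,j)` are in general taken with very large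
multiplicities and have density zero, and so this does not follow from the size of the exceptional set.

Proof. Write `n_(i,j) = l w` where `l` is composed of the primes `≤ z = N^(1 / J)`, `J` about `log log N`. For most `n_(i,j)`
one has `l ≤ N^η`, and `w` is a product of at most `J` different primes. So `F_(i,j)(w)` is taken at most `(1 + τ)^J` times, `τ`
its number of divisors, which is at most `N^o(1)` on average, even in mean square; and there are only `C T^(k (m + 1) - c)`
exceptional tuples of elements with coordinates in `[-T, T]`, by the starting theorem `NumberFieldTuples` of this problem.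
-/

set_option autoImplicit false

namespace Pool.Agent.Results.MP_c82530_nt.MultiplicativeValues

open Pool.Agent.N733.TG (LM lm_totient lm_sigma keep_tuples2)
open Pool.Agent.Results.MP_c82530_nt.NumberFieldTuples (Related)

/-- **Gel'fond's conjecture in bounded degree for the values of multiplicative functions.** Let the `F_(i,j)`, `1 ≤ i ≤ k`,
`0 ≤ j ≤ m`, be multiplicative and positive, of at most polynomial growth, with `F_(i,j) p ≤ M p` at the large primes, and
injective there. Let `ω_0 ≠ 0, ω_1, …, ω_m` be algebraic numbers and `θ_1, …, θ_r` distinct algebraic numbers. For every `A`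
and all large `N`, for all `ℚ`-linearly independent algebraic numbers `α_1, …, α_l`, for all families `n_(i,j)` of integers in
`[1, N]` but at most `N^(k (m + 1)) / (log N)^A`, all `F_(i,j)(n_(i,j))` are at least `2` and for all integers `b_(i,j)` with
`|b_(i,j)| = F_(i,j)(n_(i,j))` the numbers `e^α_1, …, e^α_l` and the logarithms of the numbers `b_(i,0) ω_0 + … + b_(i,m) ω_m + θ_s`
(for every choice of these logarithms) satisfy no polynomial relation of degree at most `δ` over a number field of degree at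
most `d`. Euler's function and the sum of the divisors are examples of such functions. -/
theorem result :
    (∀ k m : ℕ, 1 ≤ k → ∀ F : Fin k → Fin (m + 1) → ℕ → ℕ, (∀ i j, LM (F i j)) →
      ∀ ω : Fin (m + 1) → ℂ, (∀ j, IsAlgebraic ℚ (ω j)) → ω 0 ≠ 0 →
      ∀ (r : ℕ) (θ : Fin r → ℂ), (∀ j, IsAlgebraic ℚ (θ j)) → Function.Injective θ → ∀ l δ d A : ℕ,
      ∃ N₀ : ℕ, ∀ N : ℕ, N₀ ≤ N → ∀ α : Fin l → ℂ, (∀ i, IsAlgebraic ℚ (α i)) → LinearIndependent ℚ α →
      ({n : Fin k → Fin (m + 1) → ℕ | (∀ i j, 1 ≤ n i j ∧ n i j ≤ N) ∧ ¬ ((∀ i j, 2 ≤ F i j (n i j)) ∧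
        ∀ b : Fin k → Fin (m + 1) → ℤ, (∀ i j, (b i j).natAbs = F i j (n i j)) → ¬ Related δ d α ω θ b)}.ncard : ℝ) ≤
        (N : ℝ) ^ (k * (m + 1)) / Real.log N ^ A) ∧
    LM Nat.totient ∧ LM (fun m => ∑ d ∈ m.divisors, d) := by
  refine ⟨fun k m hk F hF ω hω hω0 r θ hθ hinj l δ d A => ?_, lm_totient, lm_sigma⟩
  obtain ⟨c, hc, C, hC⟩ := Pool.Agent.Results.MP_c82530_nt.NumberFieldTuples.result ω hω hω0 θ hθ hinj k l δ d
  let e : Fin k × Fin (m + 1) ≃ Fin (k * (m + 1)) := finProdFinEquiv
  have hk1 : 1 ≤ k * (m + 1) := Nat.mul_pos hk (Nat.succ_pos m)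
  obtain ⟨N₀, hN₀⟩ := keep_tuples2 (k := k * (m + 1)) hk1 (F := fun p => F (e.symm p).1 (e.symm p).2)
    (fun p => hF _ _) hc A C
  refine ⟨N₀, fun N hN α hα hli => ?_⟩
  have key := hN₀ N hN {w : Fin (k * (m + 1)) → ℕ | ∃ b : Fin k → Fin (m + 1) → ℤ,
    (∀ i j, (b i j).natAbs = w (e (i, j))) ∧ Related δ d α ω θ b} (fun X hX => ?_)
  · refine le_trans ?_ key
    have hfin : {n : Fin (k * (m + 1)) → ℕ | (∀ p, 1 ≤ n p ∧ n p ≤ N) ∧
        ¬ ((∀ p, 2 ≤ F (e.symm p).1 (e.symm p).2 (n p)) ∧
        (fun p => F (e.symm p).1 (e.symm p).2 (n p)) ∉ {w : Fin (k * (m + 1)) → ℕ | ∃ b : Fin k → Fin (m + 1) → ℤ,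
        (∀ i j, (b i j).natAbs = w (e (i, j))) ∧ Related δ d α ω θ b})}.Finite := by
      apply (Set.finite_Icc (fun _ => 1) (fun _ => N)).subset
      intro n hn
      exact ⟨fun p => (hn.1 p).1, fun p => (hn.1 p).2⟩
    have h1 := Set.ncard_le_ncard_of_injOn (s := {n : Fin k → Fin (m + 1) → ℕ | (∀ i j, 1 ≤ n i j ∧ n i j ≤ N) ∧
        ¬ ((∀ i j, 2 ≤ F i j (n i j)) ∧
        ∀ b : Fin k → Fin (m + 1) → ℤ, (∀ i j, (b i j).natAbs = F i j (n i j)) → ¬ Related δ d α ω θ b)})
      (fun n p => n (e.symm p).1 (e.symm p).2) (fun n hn => ?_) (fun n _ n' _ h => ?_) hfin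
    · exact_mod_cast h1
    · obtain ⟨h2, h3⟩ := hn
      refine ⟨fun p => h2 _ _, fun ⟨h4, h5⟩ => h3 ⟨fun i j => ?_, fun b hb hR => h5 ⟨b, fun i j => ?_, hR⟩⟩⟩
      · have := h4 (e (i, j))
        simpa using this
      · simpa using hb i j
    · funext i j
      have := congrFun h (e (i, j))
      simpa using this
  · obtain ⟨h1, h2⟩ := hC α hα hli X hX
    refine le_trans ?_ h2
    have h3 : {w : Fin (k * (m + 1)) → ℕ | (∀ p, 2 ≤ w p ∧ w p ≤ X) ∧
        w ∈ {w : Fin (k * (m + 1)) → ℕ | ∃ b : Fin k → Fin (m + 1) → ℤ,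
        (∀ i j, (b i j).natAbs = w (e (i, j))) ∧ Related δ d α ω θ b}} ⊆
        (fun (b : Fin k → Fin (m + 1) → ℤ) (p : Fin (k * (m + 1))) => (b (e.symm p).1 (e.symm p).2).natAbs) ''
        {n : Fin k → Fin (m + 1) → ℤ | (∀ i j, |n i j| ≤ X) ∧ Related δ d α ω θ n} := by
      rintro w ⟨h4, b, hb, hR⟩
      refine ⟨b, ⟨fun i j => ?_, hR⟩, ?_⟩
      · rw [Int.abs_eq_natAbs, hb i j]
        exact_mod_cast (h4 (e (i, j))).2
      · funext p
        show (b (e.symm p).1 (e.symm p).2).natAbs = w p
        rw [hb, Prod.mk.eta, Equiv.apply_symm_apply]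
    exact_mod_cast (Set.ncard_le_ncard h3 (h1.image _)).trans (Set.ncard_image_le h1)

end Pool.Agent.Results.MP_c82530_nt.MultiplicativeValues
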